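import Pool.Agent.AEC.StmtsB

/-!
# Squad AEC, row DIR: directed unions
-/

open FirstOrder FirstOrder.Language Cardinal Set

universe u

namespace Pool.Agent.AEC.H27

open Pool.Agent.AEC

/-- A monotone choice of upper bounds of finite sets. -/
theorem exists_bound (ι : Type u) [Preorder ι] [IsDirectedOrder ι] [Nonempty ι] :
    ∃ v : Finset ι → ι, (∀ s, ∀ i ∈ s, i ≤ v s) ∧ ∀ t s, t ⊆ s → v t ≤ v s := by
  classical
  choose g hg using fun s : Finset ι => Finset.exists_le s
  obtain ⟨v, hv0⟩ : ∃ v : Finset ι → ι, ∀ s, v s = g (s ∪ s.ssubsets.attach.image fun t => v t.1) :=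
    ⟨Finset.strongInduction (fun s ih =>
      g (s ∪ s.ssubsets.attach.image fun t => ih t.1 (Finset.mem_ssubsets.1 t.2))),
      fun s => Finset.strongInduction_eq _ s⟩
  have hv : ∀ s, ∀ j ∈ s ∪ (s.ssubsets.attach.image fun t => v t.1), j ≤ v s := by
    intro s j hj
    rw [hv0 s]
    exact hg _ j hj
  refine ⟨v, fun s i hi => hv s i (Finset.mem_union_left _ hi), fun t s hts => ?_⟩
  rcases eq_or_lt_of_le (show t ≤ s from hts) with h | h
  · subst h
    exact le_rfl
  · refine hv s (v t) (Finset.mem_union_right _ ?_)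
    exact Finset.mem_image.2 ⟨⟨t, Finset.mem_ssubsets.2 h⟩, Finset.mem_attach _ _, rfl⟩

theorem emb_congr {L : FirstOrder.Language.{u, u}} {κ : Cardinal.{u}} (K : AEC L κ)
    {U : Type u} [L.Structure U] {S S' T T' : L.Substructure U} (h : S ≤ T) (h' : S' ≤ T')
    (hS : S = S') (hT : T = T') (he : K.emb (Substructure.inclusion h)) :
    K.emb (Substructure.inclusion h') := by
  subst hS
  subst hT
  exact he

theorem dir : FinStmt.{u} → DirStmt.{u} := by
  intro hfin L κ K U _ ι _ _ _ S mono hemb i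
  obtain ⟨v, hv1, hv2⟩ := exists_bound ι
  have hM : Monotone (fun s : Finset ι => S (v s)) := fun s t h => mono (hv2 s t h)
  have h1 := hfin L κ K U ι (fun s => S (v s)) hM
    (fun s t h => hemb (v s) (v t) (hv2 s t h)) (({i} : Finset ι) : Set ι) Set.univ
    (Set.subset_univ _)
  have hA : unionOver (fun s : Finset ι => S (v s)) (({i} : Finset ι) : Set ι) = S (v {i}) := by
    apply le_antisymm
    · exact iSup_le fun s => mono (hv2 s.1 {i} (Finset.coe_subset.1 s.2))
    · exact le_iSup_of_le (⟨{i}, subset_rfl⟩ :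
        {s : Finset ι // (s : Set ι) ⊆ (({i} : Finset ι) : Set ι)}) le_rfl
  have hB : unionOver (fun s : Finset ι => S (v s)) (Set.univ : Set ι) = ⨆ i, S i := by
    apply le_antisymm
    · exact iSup_le fun s => le_iSup S (v s.1)
    · refine iSup_le fun j => ?_
      exact le_iSup_of_le (⟨{j}, Set.subset_univ _⟩ :
        {s : Finset ι // (s : Set ι) ⊆ (Set.univ : Set ι)})
        (mono (hv1 {j} j (Finset.mem_singleton_self j)))
  have h2 : K.emb (Substructure.inclusion (le_iSup S (v {i}))) :=
    emb_congr K _ _ hA hB h1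
  have h3 : K.emb (Substructure.inclusion (mono (hv1 {i} i (Finset.mem_singleton_self i)))) :=
    hemb i (v {i}) (hv1 {i} i (Finset.mem_singleton_self i))
  exact K.comp h3 h2

end Pool.Agent.AEC.H27
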